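import Pool.Agent.V1115.FB.Fit
import Pool.Agent.V1115.FB.Aff

/-!
# Faithful blocks with few characters and `p ∣ |G : F(G)|`
-/

set_option linter.unusedSectionVars false

open scoped BigOperators Classical
open Pool.Agent.H254R3.IN Pool.Agent.V1115.FB

noncomputable section

namespace Pool.Agent.Results.MP_9530fa_al.SmallFaithfulBlocks

/-- `B` is a faithful `p`-block of positive defect of the group `G`, and `p` divides the index of
the Fitting subgroup of `G`. -/
def Admissible (p : ℕ) (O : ValuationSubring ℂ) (G : Type) [Group G] (B : Set (G → ℂ)) : Prop :=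
  p ∣ (fitting G).index ∧ IsBlock O B ∧ (∀ g : G, (∀ χ ∈ B, χ g = χ 1) → g = 1) ∧
    ∃ D : Subgroup G, IsDefectGroup p O B D ∧ D ≠ ⊥

lemma exists_O (p : ℕ) (hp : p.Prime) : ∃ O : ValuationSubring ℂ, (p : ℂ) ∈ O.nonunits := by
  let f : ℤ →+* ℂ := Int.castRingHom ℂ
  have hf : Function.Injective f := fun a b h => by
    have h' : (a : ℂ) = (b : ℂ) := h
    exact_mod_cast h'
  let A : Subring ℂ := f.range
  let I : Ideal A := Ideal.span {f.rangeRestrict (p : ℤ)}
  have hI : I ≠ ⊤ := by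
    intro h
    have h1 : (1 : A) ∈ I := h ▸ Submodule.mem_top
    obtain ⟨b, hb⟩ := Ideal.mem_span_singleton'.1 h1
    obtain ⟨c, rfl⟩ := f.rangeRestrict_surjective b
    rw [← map_mul, ← map_one f.rangeRestrict] at hb
    have hb' : f (c * (p : ℤ)) = f 1 := congrArg Subtype.val hb
    have h2 := hf hb'
    have h3 : (p : ℤ) ∣ 1 := ⟨c, by rw [mul_comm]; exact h2.symm⟩
    have h4 : p ∣ 1 := by exact_mod_cast h3
    exact hp.one_lt.ne' (Nat.dvd_one.1 h4)
  obtain ⟨O, hAO, hIO⟩ := Ideal.image_subset_nonunits_valuationSubring I hI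
  exact ⟨O, hIO ⟨f.rangeRestrict (p : ℤ), Ideal.subset_span rfl, by simp [f]⟩⟩

theorem general (p a e : ℕ) (hp : p.Prime) (hp2 : p ≠ 2) (hae : p - 1 = a * e) (he : 2 ≤ e)
    (O : ValuationSubring ℂ) (hO : (p : ℂ) ∈ O.nonunits) :
    ∃ (G : Type) (_ : Group G) (_ : Finite G) (B : Set (G → ℂ)), Admissible p O G B ∧
      0 < Nat.card B ∧ Nat.card B ≤ a + e := by
  have : Fact p.Prime := ⟨hp⟩
  obtain ⟨H, hH1, hH2⟩ := exists_H hae
  obtain ⟨k, hk, hk1⟩ : ∃ k ∈ H, k ≠ 1 := by
    by_contra h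
    push Not at h
    have h1 : H = ⊥ := by
      rw [eq_bot_iff]
      intro k hk
      exact Subgroup.mem_bot.mpr (h k hk)
    rw [h1, Subgroup.card_bot] at hH1
    omega
  have hfaith : FaithfulSMul (Aff p H × Aff p H) (Aff p H) := act_faithful hk hk1
  have hpK : p ∣ Nat.card (Aff p H) := by
    rw [card_aff]
    exact Dvd.intro _ rfl
  have hpX : p ∣ Nat.card (Aff p H × Aff p H) := by
    rw [Nat.card_prod]
    exact Dvd.dvd.mul_right hpK _
  let j : Aff p H →* Aff p H × Aff p H := (MonoidHom.id _).prod (MonoidHom.id _)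
  refine ⟨W (Aff p H × Aff p H) (Aff p H), inferInstance, inferInstance,
    BB O (Aff p H × Aff p H) (Aff p H), ⟨fitting_index hp hp2 hpX, BB_block, BB_faithful, ?_⟩,
    ?_, ?_⟩
  · refine positive_defect (χ := ch0 _ _) BB_block hO ch0_mem (d := Fintype.card (Aff p H))
      (m := 2 ^ Fintype.card (Aff p H) * Nat.card (Aff p H)) char0_one ?_
      (Dvd.dvd.mul_left hpK _)
    rw [card_W, Nat.card_prod, Nat.card_eq_fintype_card (α := Aff p H)]
    ring
  · have hfin : (BB O (Aff p H × Aff p H) (Aff p H)).Finite :=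
      Set.Finite.subset (Pool.Agent.Helper884.IC.irr_finite
        (G := W (Aff p H × Aff p H) (Aff p H))) fun χ hχ => hχ.1
    have : Finite (BB O (Aff p H × Aff p H) (Aff p H)) := hfin
    have : Nonempty (BB O (Aff p H × Aff p H) (Aff p H)) := ⟨⟨_, ch0_mem⟩⟩
    exact Nat.card_pos
  · refine le_trans (card_BB (K := Aff p H) hp2 hO j (ω := (1 : Aff p H)) ?_ ?_) ?_
    · rintro ⟨x, y⟩ hxy
      rw [act_def] at hxy
      have h1 : x = y := by
        have h2 : x * 1 * y⁻¹ = 1 := hxy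
        rw [mul_one, mul_inv_eq_one] at h2
        exact h2
      exact ⟨x, by rw [h1]; rfl⟩
    · intro x
      rw [act_def]
      show x * 1 * x⁻¹ = 1
      rw [mul_one, mul_inv_cancel]
    · refine le_trans card_classes ?_
      rw [hH1, hH2, add_comm]

/-- (a) For every odd prime `p` and every factorisation `p - 1 = a e` with `e ≥ 2` there are a finite
group `G` with `p ∣ |G : F(G)|` and a faithful `p`-block `B` of `G` of positive defect with
`k(B) ≤ a + e`; in particular `k(B) ≤ 2 √(p - 1)` occurs whenever `p - 1` is a square.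
(b) There are a prime `p`, a finite group `G` with `p ∣ |G : F(G)|` and a faithful `p`-block `B` of
`G` of positive defect with `k(B) < p / log₂ p`. -/
theorem result :
    (∀ p a e : ℕ, p.Prime → p ≠ 2 → p - 1 = a * e → 2 ≤ e →
      ∀ O : ValuationSubring ℂ, (p : ℂ) ∈ O.nonunits →
        ∃ (G : Type) (_ : Group G) (_ : Finite G) (B : Set (G → ℂ)), Admissible p O G B ∧
          0 < Nat.card B ∧ Nat.card B ≤ a + e) ∧
    (∃ p : ℕ, p.Prime ∧ (∃ O : ValuationSubring ℂ, (p : ℂ) ∈ O.nonunits) ∧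
      ∀ O : ValuationSubring ℂ, (p : ℂ) ∈ O.nonunits →
        ∃ (G : Type) (_ : Group G) (_ : Finite G) (B : Set (G → ℂ)), Admissible p O G B ∧
          0 < Nat.card B ∧ (Nat.card B : ℝ) < p / Real.logb 2 p) := by
  refine ⟨fun p a e hp hp2 hae he O hO => general p a e hp hp2 hae he O hO,
    65537, by norm_num, exists_O _ (by norm_num), ?_⟩
  intro O hO
  obtain ⟨G, h1, h2, B, hB, hB0, hB1⟩ := general 65537 256 256 (by norm_num) (by norm_num)
    (by norm_num) (by norm_num) O hO
  refine ⟨G, h1, h2, B, hB, hB0, ?_⟩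
  have h3 : (Nat.card B : ℝ) ≤ 512 := by exact_mod_cast hB1
  have h4 : Real.logb 2 ((65537 : ℕ) : ℝ) < 17 := by
    rw [Real.logb_lt_iff_lt_rpow (by norm_num) (by norm_num)]
    norm_num
  have h5 : 0 < Real.logb 2 ((65537 : ℕ) : ℝ) := Real.logb_pos (by norm_num) (by norm_num)
  refine lt_of_le_of_lt h3 ?_
  rw [lt_div_iff₀ h5]
  push_cast at h4 h5 ⊢
  nlinarith

end Pool.Agent.Results.MP_9530fa_al.SmallFaithfulBlocks
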